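import Pool.Agent.Helper19.V4.Final
import Pool.Agent.Helper88.LV.MainN

/-!
# Moebius exponential sums below `N^{4/5}` at fractions with denominators about `N^{1/2}`

`|∑_{n ≤ N} μ(n) e(n x)| ≤ C (1 + N |x - a/b|) N^{4/5 - d}` for coprime `a, b` with
`N^κ0 ≤ b ≤ N^κ1`, for every `2/5 < κ0` and `κ1 < 68/135`.
-/

set_option autoImplicit false

namespace Pool.Agent.Helper25.V0

open Pool.Helper19.V4

theorem v0 {κ0 κ1 : ℝ} (h0 : 2 / 5 < κ0) (h1 : κ1 < 68 / 135) :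
    ∃ d : ℝ, 0 < d ∧ ∃ C : ℝ, 0 < C ∧ ∀ N : ℕ, 1 ≤ N → ∀ (x : ℝ) (a : ℤ) (b : ℕ), 1 ≤ b →
      IsCoprime a (b : ℤ) → (N : ℝ) ^ κ0 ≤ b → (b : ℝ) ≤ (N : ℝ) ^ κ1 →
        ‖FM N x‖ ≤ C * (1 + N * |x - a / b|) * (N : ℝ) ^ ((4 : ℝ) / 5 - d) := by
  have h2 : 2 / 5 < (2 / 5 + κ0) / 2 := by linarith
  exact main h2 (by linarith) (by linarith) (Pool.Agent.Helper88.LV.lvn ((2 / 5 + κ0) / 2) κ1 h2 h1)

end Pool.Agent.Helper25.V0
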